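import Mathlib
import Pool.Agent.H31.DE.Fin

set_option autoImplicit false

namespace Pool.Agent.Results.MP_f0503f_co.DisplacingEndomorphism

/-- The clique graph operator on pairs (vertex type, graph): the vertices of the clique graph are the maximal
cliques, two different ones are adjacent when they share a vertex. -/
def cliqueGraph (p : Σ α : Type, SimpleGraph α) : Σ α : Type, SimpleGraph α :=
  ⟨{s : Set p.1 // Maximal p.2.IsClique s},
    SimpleGraph.fromRel
      (fun a b : {s : Set p.1 // Maximal p.2.IsClique s} => (a.1 ∩ b.1).Nonempty)⟩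

/-- Let `G` be a finite connected graph whose vertex neighbourhoods induce cycles and with
V − E + (number of triangles) = 2 (a locally cyclic triangulation of the sphere). If for some `n` the iterated clique graph
of order `n` has a map `f` into itself which sends adjacent vertices to equal or adjacent ones and every vertex `x` to a vertex
different from `x` and not adjacent to `x`, then the numbers of vertices of the iterated clique graphs of `G` are unbounded. -/
theorem result :
    ∀ (V : Type) [Fintype V] [DecidableEq V] (G : SimpleGraph V) [DecidableRel G.Adj],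
      G.Connected →
      (∀ v : V, ∃ n : ℕ, 3 ≤ n ∧
        Nonempty (SimpleGraph.Iso (SimpleGraph.induce (G.neighborSet v) G)
          (SimpleGraph.cycleGraph n))) →
      (Fintype.card V : ℤ) - (G.edgeFinset.card : ℤ) + ((G.cliqueFinset 3).card : ℤ) = 2 →
      ∀ (n : ℕ) (f : (cliqueGraph^[n] ⟨V, G⟩).1 → (cliqueGraph^[n] ⟨V, G⟩).1),
        (∀ x y, (cliqueGraph^[n] ⟨V, G⟩).2.Adj x y →
          f x = f y ∨ (cliqueGraph^[n] ⟨V, G⟩).2.Adj (f x) (f y)) →
        (∀ x, f x ≠ x ∧ ¬ (cliqueGraph^[n] ⟨V, G⟩).2.Adj x (f x)) →
        ∀ N : ℕ, ∃ m : ℕ, N < Nat.card (cliqueGraph^[m] ⟨V, G⟩).1 := by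
  intro V _ _ G _ hc hl hχ n f hf hd N
  exact Pool.Agent.H31.DE.sphere_div V G hc hl hχ n f hf hd N

end Pool.Agent.Results.MP_f0503f_co.DisplacingEndomorphism
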