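import Mathlib
import Pool.Agent.H71.Clq.Final
import Pool.Agent.H71.Clq.Final0

set_option autoImplicit false

namespace Pool.Agent.Results.MP_f0503f_co.NonSphere

/-- Every finite connected graph whose vertex neighbourhoods induce cycles and with
0 ≤ V − E + (number of triangles) < 2 (a triangulation of the torus, the Klein bottle or the projective
plane) has iterated clique graphs whose numbers of vertices are unbounded. -/
theorem result :
    ∀ (V : Type) [Fintype V] [DecidableEq V] (G : SimpleGraph V) [DecidableRel G.Adj],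
      G.Connected →
      (∀ v : V, ∃ n : ℕ, 3 ≤ n ∧
        Nonempty (SimpleGraph.Iso (SimpleGraph.induce (G.neighborSet v) G)
          (SimpleGraph.cycleGraph n))) →
      (0 : ℤ) ≤ (Fintype.card V : ℤ) - (G.edgeFinset.card : ℤ) + ((G.cliqueFinset 3).card : ℤ) →
      (Fintype.card V : ℤ) - (G.edgeFinset.card : ℤ) + ((G.cliqueFinset 3).card : ℤ) < 2 →
      ∀ N : ℕ, ∃ m : ℕ, N < Nat.card
        (((fun p : (Σ α : Type, SimpleGraph α) =>
            (⟨{s : Set p.1 // Maximal p.2.IsClique s},
              SimpleGraph.fromRel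
                (fun a b : {s : Set p.1 // Maximal p.2.IsClique s} => (a.1 ∩ b.1).Nonempty)⟩ :
              Σ α : Type, SimpleGraph α))^[m] ⟨V, G⟩).1) := by
  intro V _ _ G _ hc hl h0 h2 N
  have h : (Fintype.card V : ℤ) - (G.edgeFinset.card : ℤ) + ((G.cliqueFinset 3).card : ℤ) = 0 ∨
      (Fintype.card V : ℤ) - (G.edgeFinset.card : ℤ) + ((G.cliqueFinset 3).card : ℤ) = 1 := by
    omega
  rcases h with h | h
  · exact Pool.Agent.H71.Clq.chi0_divergent V G hc hl h N
  · exact Pool.Agent.H71.Clq.p2_divergent V G hc hl h N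

end Pool.Agent.Results.MP_f0503f_co.NonSphere
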